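import Mathlib

/-! MP_1cad20_al: every weakly left duo ring (identity not assumed) is left Dischinger. -/

namespace Pool.Agent.Results.MP_1cad20_al.LeftDischinger

/-- `pw a n` is the power `a^(n+1)` in a ring without assumed identity. -/
def pw {R : Type*} [NonUnitalRing R] (a : R) : ℕ → R
  | 0 => a
  | n + 1 => pw a n * a

/-- A ring is weakly left duo: each `a` has a power `a^(n+1)` such that the left ideal
`R a^(n+1)` is also a right ideal. -/
def WeaklyLeftDuo (R : Type*) [NonUnitalRing R] : Prop :=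
  ∀ a : R, ∃ n : ℕ, ∀ r s : R, ∃ t : R, r * pw a n * s = t * pw a n

open Polynomial

/-- The argument inside a two-sided ideal of a ring with identity. -/
theorem main {A : Type*} [Ring A] (J : Ideal A) (hJ : ∀ z ∈ J, ∀ r : A, z * r ∈ J)
    (H : ∀ a ∈ J, ∃ n : ℕ, ∀ r ∈ J, ∀ s ∈ J, ∃ t ∈ J, r * a ^ (n + 1) * s = t * a ^ (n + 1))
    (a x : A) (ha : a ∈ J) (hx : x ∈ J) (hax : a = x * (a * a)) :
    ∃ y ∈ J, a = a * a * y := by
  obtain ⟨u, hu⟩ : ∃ u, u = x * a := ⟨_, rfl⟩
  have huJ : u ∈ J := by rw [hu]; exact hJ x hx a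
  have hua : u * a = a := by rw [hu, mul_assoc]; exact hax.symm
  obtain ⟨g, hg⟩ : ∃ g, g = u * (1 - u) := ⟨_, rfl⟩
  have hgJ : g ∈ J := by rw [hg]; exact hJ u huJ _
  have hga : g * a = 0 := by
    rw [hg, mul_assoc, sub_mul, one_mul, hua, sub_self, mul_zero]
  obtain ⟨n, hn⟩ := H g hgJ
  obtain ⟨t, _, ht⟩ := hn g hgJ x hx
  have h1 : g ^ (n + 1) * a = 0 := by rw [pow_succ, mul_assoc, hga, mul_zero]
  have h2 : g * g ^ (n + 1) * u = 0 := by
    rw [hu, ← mul_assoc, ht, mul_assoc, h1, mul_zero]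
  have hcomm : Commute u (1 - u) := (Commute.one_right u).sub_right (Commute.refl u)
  have h3 : (u * (1 - u)) ^ (n + 3) = 0 := by
    rw [← hg]
    have : g ^ (n + 3) = g * g ^ (n + 1) * g := by
      rw [← pow_succ', ← pow_succ]
    rw [this]
    nth_rewrite 3 [hg]
    rw [← mul_assoc, h2, zero_mul]
  -- the idempotent
  have hcop : IsCoprime ((X : ℤ[X]) ^ (n + 3)) ((1 - X) ^ (n + 3)) := by
    apply IsCoprime.pow
    exact ⟨1, 1, by ring⟩
  obtain ⟨P, Q, hPQ⟩ := hcop
  let φ : ℤ[X] →ₐ[ℤ] A := aeval u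
  have hφX : φ X = u := aeval_X u
  have hφc : ∀ p q, φ p * φ q = φ q * φ p := fun p q => by rw [← map_mul, mul_comm, map_mul]
  obtain ⟨f, hf⟩ : ∃ f, f = φ (P * X ^ (n + 3)) := ⟨_, rfl⟩
  have hf1 : f = 1 - φ (Q * (1 - X) ^ (n + 3)) := by
    rw [hf, eq_sub_iff_add_eq, ← map_add, hPQ, map_one]
  have hff : f * f = f := by
    have e1 : f * f = f - f * φ (Q * (1 - X) ^ (n + 3)) := by
      nth_rewrite 2 [hf1]
      rw [mul_sub, mul_one]
    have e2 : f * φ (Q * (1 - X) ^ (n + 3)) = 0 := by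
      rw [hf, ← map_mul]
      have : (P * X ^ (n + 3)) * (Q * (1 - X) ^ (n + 3)) =
          (P * Q) * (X * (1 - X)) ^ (n + 3) := by rw [mul_pow]; ring
      have e3 : φ ((X * (1 - X)) ^ (n + 3)) = 0 := by
        rw [map_pow, map_mul, map_sub, map_one, hφX, h3]
      rw [this, map_mul, e3, mul_zero]
    rw [e1, e2, sub_zero]
  have hfa : f * a = a := by
    rw [hf1, sub_mul, one_mul]
    have : φ (Q * (1 - X) ^ (n + 3)) * a = 0 := by
      rw [pow_succ, ← mul_assoc, map_mul, map_sub, map_one, hφX, mul_assoc, sub_mul, one_mul,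
        hua, sub_self, mul_zero]
    rw [this, sub_zero]
  obtain ⟨p, hp⟩ : ∃ p, p = φ (P * X ^ (n + 2)) := ⟨_, rfl⟩
  have hup : u * p = f := by
    rw [hp, hf, ← hφX]
    show φ X * φ (P * X ^ (n + 2)) = φ (P * X ^ (n + 3))
    rw [← map_mul]
    congr 1
    ring
  have hpu : p * u = u * p := by
    have := hφc (P * X ^ (n + 2)) X
    rw [hφX] at this
    rw [hp]
    exact this
  have hfu : f * u = u * f := by
    have := hφc (P * X ^ (n + 3)) X
    rw [hφX] at this
    rw [hf]
    exact this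
  have hfp : f * p = p * f := by rw [hf, hp]; exact hφc _ _
  have hfJ : f ∈ J := by rw [← hup]; exact hJ u huJ p
  -- left inverse of f a f in the corner
  obtain ⟨w, hw⟩ : ∃ w, w = f * p * x * f := ⟨_, rfl⟩
  have hwJ : w ∈ J := by rw [hw]; exact J.mul_mem_left _ hfJ
  have hwf : w * f = w := by rw [hw, mul_assoc, hff]
  have hfw : f * w = w := by
    rw [hw]; simp only [← mul_assoc]; rw [hff]
  have hwa : w * (a * f) = f := by
    calc w * (a * f) = f * p * x * (f * a) * f := by rw [hw]; simp only [mul_assoc]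
      _ = f * p * (x * a) * f := by rw [hfa]; simp only [mul_assoc]
      _ = f * (p * u) * f := by rw [← hu]; simp only [mul_assoc]
      _ = f := by rw [hpu, hup, hff, hff]
  obtain ⟨h, hh⟩ : ∃ h, h = f - a * f * w := ⟨_, rfl⟩
  have hhJ : h ∈ J := by rw [hh]; exact J.sub_mem hfJ (J.mul_mem_left _ hwJ)
  have hfh : h * f = h := by rw [hh, sub_mul, hff, mul_assoc, hwf]
  have hha : h * (a * f) = 0 := by
    rw [hh, sub_mul, ← mul_assoc f a f, hfa, mul_assoc (a * f) w, hwa, mul_assoc a f f, hff,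
      sub_self]
  have hhh : h * h = h := by
    nth_rewrite 2 [hh]
    rw [mul_sub, ← mul_assoc, hha, zero_mul, sub_zero, hfh]
  obtain ⟨m, hm⟩ := H h hhJ
  have hpow : ∀ m : ℕ, h ^ (m + 1) = h := by
    intro m
    induction m with
    | zero => simp
    | succ m ih => rw [pow_succ, ih, hhh]
  have hduo : ∀ r ∈ J, h * r = h * r * h := by
    intro r hr
    obtain ⟨t, _, ht⟩ := hm h hhJ r hr
    rw [hpow, hhh] at ht
    rw [ht, mul_assoc, hhh]
  have hh0 : h = 0 := by
    calc h = h * (w * (a * f)) := by rw [hwa, hfh]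
      _ = h * w * (a * f) := by rw [mul_assoc]
      _ = h * w * h * (a * f) := by rw [← hduo w hwJ]
      _ = 0 := by rw [mul_assoc, hha, mul_zero]
  have haw : a * w = f := by
    have : a * f * w = f := by
      rw [hh0] at hh
      exact (sub_eq_zero.1 hh.symm).symm
    rw [mul_assoc, hfw] at this
    exact this
  refine ⟨w * w * a, J.mul_mem_left _ ha, ?_⟩
  symm
  calc a * a * (w * w * a) = a * (a * w) * w * a := by simp only [mul_assoc]
    _ = a * (f * w) * a := by rw [haw]; simp only [mul_assoc]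
    _ = a := by rw [hfw, haw, hfa]

theorem inr_pw {R : Type*} [NonUnitalRing R] (a : R) (n : ℕ) :
    (Unitization.inr (pw a n) : Unitization ℤ R) = (Unitization.inr a) ^ (n + 1) := by
  induction n with
  | zero => simp [pw]
  | succ n ih =>
    rw [pow_succ, ← ih]
    show (Unitization.inr (pw a n * a) : Unitization ℤ R) = _
    rw [Unitization.inr_mul]

/-- Every weakly left duo ring is left Dischinger: if `a = x a^2` then `a = a^2 y` for some `y`.
No identity is assumed. -/
theorem result (R : Type*) [NonUnitalRing R] (hR : WeaklyLeftDuo R) (a x : R)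
    (h : a = x * (a * a)) : ∃ y : R, a = a * a * y := by
  let A := Unitization ℤ R
  let J : Ideal A := RingHom.ker (Unitization.fstHom ℤ R)
  have memJ : ∀ z : A, z ∈ J ↔ z.fst = 0 := fun z => Iff.rfl
  have hmem : ∀ z ∈ J, ∃ r : R, z = Unitization.inr r := by
    intro z hz
    rw [memJ] at hz
    exact ⟨z.snd, Unitization.ext hz rfl⟩
  have hinr : ∀ r : R, (Unitization.inr r : A) ∈ J := fun r => by rw [memJ]; simp
  obtain ⟨y, hy, hay⟩ := main (A := A) J
    (fun z hz r => by
      rw [memJ] at *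
      rw [Unitization.fst_mul, hz, zero_mul])
    (fun z hz => by
      obtain ⟨b, rfl⟩ := hmem z hz
      obtain ⟨n, hn⟩ := hR b
      refine ⟨n, fun r hr s hs => ?_⟩
      obtain ⟨r, rfl⟩ := hmem r hr
      obtain ⟨s, rfl⟩ := hmem s hs
      obtain ⟨t, ht⟩ := hn r s
      refine ⟨Unitization.inr t, hinr t, ?_⟩
      rw [← inr_pw, ← Unitization.inr_mul, ← Unitization.inr_mul, ← Unitization.inr_mul, ht])
    (Unitization.inr a) (Unitization.inr x) (hinr a) (hinr x)
    (by rw [← Unitization.inr_mul, ← Unitization.inr_mul, ← h])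
  obtain ⟨y, rfl⟩ := hmem y hy
  refine ⟨y, ?_⟩
  rw [← Unitization.inr_mul, ← Unitization.inr_mul] at hay
  exact Unitization.inr_injective hay

end Pool.Agent.Results.MP_1cad20_al.LeftDischinger
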